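import Pool.Agent.Y283.NK.Stm
import Pool.Agent.Helper209.CX.K04

/-!
# Weyl's inequality for the matrix of inner products
-/

set_option autoImplicit false

namespace Pool.Agent.Y978.NK

open Pool.Agent.Y283.NK
open scoped InnerProductSpace

/-- Schur triangularisation and the determinant -/
theorem schur_det (N : ℕ) (K : Matrix (Fin N) (Fin N) ℂ) :
    ∃ U : Matrix (Fin N) (Fin N) ℂ, U * star U = 1 ∧
      ∀ t : ℂ, ((1 : Matrix (Fin N) (Fin N) ℂ) - t • K).det =
        ∏ j, (1 - t * (star U * K * U) j j) := by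
  obtain ⟨b, -, ho, htri, -, -⟩ := Pool.Agent.Helper209.CX.K04.d4_schur_aux (fun _ => True) N
    (EuclideanSpace ℂ (Fin N)) (by simp) (Matrix.toEuclideanLin K)
  let U : Matrix (Fin N) (Fin N) ℂ := fun x g => b g x
  have hUU : star U * U = 1 := by
    ext g g'
    rw [Matrix.mul_apply, Matrix.one_apply]
    have := orthonormal_iff_ite.1 ho g g'
    rw [← this, PiLp.inner_apply]
    exact Finset.sum_congr rfl fun x _ => mul_comm _ _
  have hUU' : U * star U = 1 := mul_eq_one_comm.1 hUU
  have hM : ∀ g g', (star U * K * U) g g' = inner ℂ (b g) (Matrix.toEuclideanLin K (b g')) := by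
    intro g g'
    simp only [Matrix.mul_apply, PiLp.inner_apply, Matrix.toLpLin_apply]
    simp only [Matrix.mulVec, dotProduct, Finset.sum_mul]
    rw [Finset.sum_comm]
    refine Finset.sum_congr rfl fun x _ => ?_
    show _ = (∑ y, K x y * (b g') y) * (starRingEnd ℂ) (b g x)
    rw [Finset.sum_mul]
    refine Finset.sum_congr rfl fun y _ => ?_
    show (starRingEnd ℂ) (b g x) * K x y * (b g' y) = _
    ring
  refine ⟨U, hUU', fun t => ?_⟩
  generalize hMM : star U * K * U = M at hM ⊢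
  have hT : M.BlockTriangular id := by
    intro g g' h
    rw [hM]
    exact htri _ _ h
  have h1 : (1 - t • M) = star U * (1 - t • K) * U := by
    rw [Matrix.mul_sub, Matrix.sub_mul, Matrix.mul_one, hUU, Matrix.mul_smul, Matrix.smul_mul,
      hMM]
  have h2 : (1 - t • M).det = (1 - t • K).det := by
    rw [h1, Matrix.det_mul, Matrix.det_mul, mul_comm, ← mul_assoc, ← Matrix.det_mul, hUU',
      Matrix.det_one, one_mul]
  have h3 : (1 - t • M).BlockTriangular id := by
    intro g g' h
    have h4 : M g g' = 0 := hT h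
    have h5 : (1 : Matrix (Fin N) (Fin N) ℂ) g g' = 0 := Matrix.blockTriangular_one h
    simp [h4, h5]
  rw [← h2, Matrix.det_of_isUpperTriangular h3]
  exact Finset.prod_congr rfl fun j _ => by simp

section

variable {E : Type} [NormedAddCommGroup E] [InnerProductSpace ℂ E]

/-- a unitary change of a finite family of vectors preserves the sum of the squares -/
theorem sum_sq (n : ℕ) (U : Matrix (Fin n) (Fin n) ℂ) (hU : U * star U = 1) (p : Fin n → E) :
    ∑ k, ‖∑ j, U j k • p j‖ ^ 2 = ∑ j, ‖p j‖ ^ 2 := by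
  have h1 : ∀ x : E, ((‖x‖ ^ 2 : ℝ) : ℂ) = ⟪x, x⟫_ℂ := fun x => by
    rw [inner_self_eq_norm_sq_to_K]
    push_cast
    rfl
  have h2 : ((∑ k, ‖∑ j, U j k • p j‖ ^ 2 : ℝ) : ℂ) = ((∑ j, ‖p j‖ ^ 2 : ℝ) : ℂ) := by
    rw [Complex.ofReal_sum, Complex.ofReal_sum]
    have h3 : ∀ k, (((‖∑ j, U j k • p j‖ ^ 2 : ℝ)) : ℂ) =
        ∑ i, ∑ j, (U j k * star (U i k)) * ⟪p i, p j⟫_ℂ := by
      intro k
      rw [h1, sum_inner]
      refine Finset.sum_congr rfl fun i _ => ?_
      rw [inner_sum]
      refine Finset.sum_congr rfl fun j _ => ?_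
      rw [inner_smul_left, inner_smul_right, ← mul_assoc, mul_comm (starRingEnd ℂ (U i k))]
      rfl
    rw [Finset.sum_congr rfl fun k _ => h3 k, Finset.sum_comm]
    refine Finset.sum_congr rfl fun i _ => ?_
    rw [Finset.sum_comm]
    rw [Finset.sum_eq_single i]
    · rw [← Finset.sum_mul, h1]
      have h4 : ∑ k, U i k * star (U i k) = (U * star U) i i := by
        rw [Matrix.mul_apply]
        rfl
      rw [h4, hU, Matrix.one_apply_eq, one_mul]
    · intro j _ hj
      rw [← Finset.sum_mul]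
      have h4 : ∑ k, U j k * star (U i k) = (U * star U) j i := by
        rw [Matrix.mul_apply]
        rfl
      rw [h4, hU, Matrix.one_apply_ne hj, zero_mul]
    · intro h
      exact absurd (Finset.mem_univ i) h
  exact_mod_cast h2

end

/-- Weyl's inequality for the matrix of the inner products -/
theorem main : S_DET := by
  intro E _ _ n p q
  obtain ⟨U, hU, hdet⟩ := schur_det n (Matrix.of (fun i j => ⟪q i, p j⟫_ℂ))
  refine ⟨fun k => (star U * Matrix.of (fun i j => ⟪q i, p j⟫_ℂ) * U) k k, hdet, ?_⟩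
  have hmu : ∀ k, (star U * Matrix.of (fun i j => ⟪q i, p j⟫_ℂ) * U) k k =
      ⟪∑ i, U i k • q i, ∑ j, U j k • p j⟫_ℂ := by
    intro k
    rw [Matrix.mul_apply, inner_sum]
    refine Finset.sum_congr rfl fun j _ => ?_
    rw [Matrix.mul_apply, sum_inner, Finset.sum_mul]
    refine Finset.sum_congr rfl fun i _ => ?_
    rw [inner_smul_left, inner_smul_right, Matrix.of_apply]
    show (starRingEnd ℂ) (U i k) * _ * _ = _
    ring
  calc ∑ k, ‖(star U * Matrix.of (fun i j => ⟪q i, p j⟫_ℂ) * U) k k‖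
      ≤ ∑ k, ‖∑ j, U j k • p j‖ * ‖∑ i, U i k • q i‖ := by
        refine Finset.sum_le_sum fun k _ => ?_
        rw [hmu, mul_comm]
        exact norm_inner_le_norm _ _
    _ ≤ Real.sqrt (∑ k, ‖∑ j, U j k • p j‖ ^ 2) * Real.sqrt (∑ k, ‖∑ i, U i k • q i‖ ^ 2) :=
        Real.sum_mul_le_sqrt_mul_sqrt _ _ _
    _ = _ := by rw [sum_sq n U hU p, sum_sq n U hU q]

end Pool.Agent.Y978.NK
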